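import Pool.Agent.AEC.StmtsZ

/-!
# Squad AEC, row MXB: maximal members are bases
-/

set_option autoImplicit false

universe u

namespace Pool.Agent.AEC.H15

open Pool.Agent.AEC

theorem mxb : MxbStmt.{u} := by
  intro L κ K N hN B₁ B₂ f₁ f₂ _ _
  obtain ⟨g, hg⟩ := (AEC.Hom.id B₁).exists_factor f₁ (fun b => hN B₁ f₁ b)
  refine ⟨B₂, f₂.comp g, AEC.Hom.id B₂, fun x => ?_⟩
  have h : g (f₁ x) = x := f₁.injective (hg (f₁ x))
  rw [AEC.Hom.comp_apply, AEC.Hom.id_apply, h]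

end Pool.Agent.AEC.H15
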